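import Pool.Agent.Y990.PL.Stm

set_option autoImplicit false

/-!
The van den Berg-Kesten inequality for increasing events which occur on sets sharing at most one
element (part BKS of the project PL of helper990).  Proof by doubling every element.
-/

namespace Pool.Agent.Y554.PL

open Finset H974

variable {E : Type} [DecidableEq E]

/-- probability of each of the two copies -/
noncomputable def p2 (p : E → ℝ) (x : E × Bool) : ℝ := 1 - Real.sqrt (1 - p x.1)

theorem p2_ok {p : E → ℝ} (hp : Ok p) : Ok (p2 p) := by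
  intro x
  have h1 := hp x.1
  have h2 : Real.sqrt (1 - p x.1) ≤ 1 := Real.sqrt_le_one.2 (by linarith)
  have h3 := Real.sqrt_nonneg (1 - p x.1)
  unfold p2
  constructor <;> linarith

theorem p2_sq {p : E → ℝ} (hp : Ok p) (x : E × Bool) : (1 - p2 p x) ^ 2 = 1 - p x.1 := by
  have h1 := hp x.1
  unfold p2
  rw [sub_sub_cancel, Real.sq_sqrt (by linarith)]

theorem p2_ge {p : E → ℝ} (hp : Ok p) (x : E × Bool) : p x.1 / 2 ≤ p2 p x := by
  have h1 := hp x.1
  have h2 := p2_sq hp x
  have h3 := p2_ok hp x
  nlinarith [sq_nonneg (p2 p x)]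

/-- the doubled ground set -/
def dbl (S : Finset E) : Finset (E × Bool) := S ×ˢ (Finset.univ : Finset Bool)

theorem mem_dbl {S : Finset E} {x : E × Bool} : x ∈ dbl S ↔ x.1 ∈ S := by
  simp [dbl]

theorem dbl_insert (a : E) (S : Finset E) :
    dbl (insert a S) = insert (a, true) (insert (a, false) (dbl S)) := by
  ext ⟨x, b⟩
  simp only [mem_dbl, Finset.mem_insert, Prod.mk.injEq]
  cases b <;> simp

theorem Ex_dbl_insert (p : E → ℝ) {a : E} {S : Finset E} (ha : a ∉ S)
    (f : Finset (E × Bool) → ℝ) :
    Ex (p2 p) (dbl (insert a S)) f =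
      p2 p (a, true) * (p2 p (a, false) *
        Ex (p2 p) (dbl S) (fun F => f (insert (a, true) (insert (a, false) F))) +
        (1 - p2 p (a, false)) * Ex (p2 p) (dbl S) (fun F => f (insert (a, true) F))) +
      (1 - p2 p (a, true)) * (p2 p (a, false) *
        Ex (p2 p) (dbl S) (fun F => f (insert (a, false) F)) +
        (1 - p2 p (a, false)) * Ex (p2 p) (dbl S) f) := by
  have h1 : (a, false) ∉ dbl S := by simpa [mem_dbl] using ha
  have h2 : (a, true) ∉ insert (a, false) (dbl S) := by
    simp [mem_dbl, ha]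
  rw [dbl_insert, Ex_insert _ h2, Ex_insert _ h1, Ex_insert _ h1]

theorem Ex_dbl {p : E → ℝ} (hp : Ok p) (S : Finset E) (f : Finset E → ℝ) :
    Ex (p2 p) (dbl S) (fun F => f (F.image Prod.fst)) = Ex p S f := by
  induction S using Finset.induction_on generalizing f with
  | empty => simp [dbl, Ex_empty]
  | insert a S ha ih =>
    rw [Ex_dbl_insert p ha, Ex_insert _ ha, ← ih f, ← ih (fun F => f (insert a F))]
    have e : p2 p (a, true) = p2 p (a, false) := rfl
    have h : (1 - p2 p (a, false)) ^ 2 = 1 - p a := p2_sq hp (a, false)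
    simp only [Finset.image_insert, Finset.insert_idem, e]
    have h2 : p a = 1 - (1 - p2 p (a, false)) ^ 2 := by linarith
    rw [h2]
    ring

theorem Ex_both {p : E → ℝ} (hp : Ok p) {c : E} {S : Finset E} (hc : c ∈ S)
    {g : Finset E → ℝ} (hg : ∀ F, F ⊆ S → 0 ≤ g F) :
    p c / 4 * Ex p S (fun F => g F * ind (c ∈ F)) ≤
      Ex (p2 p) (dbl S) (fun F => g (F.image Prod.fst) * ind ((c, false) ∈ F ∧ (c, true) ∈ F)) := by
  obtain ⟨S', hc', rfl⟩ : ∃ S', c ∉ S' ∧ S = insert c S' :=
    ⟨S.erase c, Finset.notMem_erase c S, (Finset.insert_erase hc).symm⟩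
  have hA : Ex p (insert c S') (fun F => g F * ind (c ∈ F)) =
      p c * Ex p S' (fun F => g (insert c F)) := by
    rw [Ex_insert _ hc']
    have h1 : Ex p S' (fun F => g (insert c F) * ind (c ∈ insert c F)) =
        Ex p S' (fun F => g (insert c F)) := by
      apply Ex_congr
      intro F _
      rw [ind_of (Finset.mem_insert_self c F), mul_one]
    have h2 : Ex p S' (fun F => g F * ind (c ∈ F)) = 0 := by
      rw [Ex_congr (g := fun _ => (0 : ℝ)), Ex_const]
      intro F hF
      rw [ind_not_of (fun h => hc' (hF h)), mul_zero]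
    rw [h1, h2]
    ring
  have hB : Ex (p2 p) (dbl (insert c S'))
      (fun F => g (F.image Prod.fst) * ind ((c, false) ∈ F ∧ (c, true) ∈ F)) =
      p2 p (c, true) * p2 p (c, false) * Ex p S' (fun F => g (insert c F)) := by
    rw [Ex_dbl_insert p hc']
    have h1 : Ex (p2 p) (dbl S') (fun F => g ((insert (c, true) (insert (c, false) F)).image Prod.fst) *
        ind ((c, false) ∈ insert (c, true) (insert (c, false) F) ∧
          (c, true) ∈ insert (c, true) (insert (c, false) F))) =
        Ex p S' (fun F => g (insert c F)) := by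
      rw [← Ex_dbl hp S' (fun F => g (insert c F))]
      apply Ex_congr
      intro F _
      rw [ind_of (by simp), mul_one]
      simp [Finset.image_insert]
    have h2 : Ex (p2 p) (dbl S') (fun F => g ((insert (c, true) F).image Prod.fst) *
        ind ((c, false) ∈ insert (c, true) F ∧ (c, true) ∈ insert (c, true) F)) = 0 := by
      rw [Ex_congr (g := fun _ => (0 : ℝ)), Ex_const]
      intro F hF
      rw [ind_not_of, mul_zero]
      rintro ⟨h, _⟩
      rw [Finset.mem_insert] at h
      rcases h with h | h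
      · simp at h
      · exact hc' (mem_dbl.1 (hF h))
    have h3 : Ex (p2 p) (dbl S') (fun F => g ((insert (c, false) F).image Prod.fst) *
        ind ((c, false) ∈ insert (c, false) F ∧ (c, true) ∈ insert (c, false) F)) = 0 := by
      rw [Ex_congr (g := fun _ => (0 : ℝ)), Ex_const]
      intro F hF
      rw [ind_not_of, mul_zero]
      rintro ⟨_, h⟩
      rw [Finset.mem_insert] at h
      rcases h with h | h
      · simp at h
      · exact hc' (mem_dbl.1 (hF h))
    have h4 : Ex (p2 p) (dbl S') (fun F => g (F.image Prod.fst) *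
        ind ((c, false) ∈ F ∧ (c, true) ∈ F)) = 0 := by
      rw [Ex_congr (g := fun _ => (0 : ℝ)), Ex_const]
      intro F hF
      rw [ind_not_of, mul_zero]
      rintro ⟨h, _⟩
      exact hc' (mem_dbl.1 (hF h))
    rw [h1, h2, h3, h4]
    ring
  rw [hA, hB]
  have hx : 0 ≤ Ex p S' (fun F => g (insert c F)) := Ex_nonneg hp (fun F hF =>
    hg _ (Finset.insert_subset_insert _ hF))
  have h1 := p2_ge hp (c, true)
  have h2 := p2_ge hp (c, false)
  have h3 := (hp c).1
  have h4 : p c / 2 * (p c / 2) ≤ p2 p (c, true) * p2 p (c, false) :=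
    mul_le_mul h1 h2 (by positivity) (by linarith)
  nlinarith [mul_le_mul_of_nonneg_right h4 hx]

/-- the event of the statement -/
def W (A B : Finset E → Prop) (J F : Finset E) : Prop :=
  ∃ K L, K ⊆ F ∧ L ⊆ F ∧ (K ∩ L).card ≤ 1 ∧ K ∩ L ⊆ J ∧ A K ∧ B L

theorem bks' (p : E → ℝ) (a : ℝ) (J S : Finset E) (A B : Finset E → Prop) (hp : Ok p)
    (ha : 0 < a) (ha1 : a ≤ 1) (hJ : ∀ c ∈ J, a ≤ p c) (hA : IncrE S A) (hB : IncrE S B) :
    a / 4 * Pr p S (W A B J) ≤ Pr p S A * Pr p S B := by
  classical
  -- choice of the witnesses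
  have hch : ∀ F : Finset E, ∃ KL : Finset E × Finset E, W A B J F →
      (KL.1 ⊆ F ∧ KL.2 ⊆ F ∧ (KL.1 ∩ KL.2).card ≤ 1 ∧ KL.1 ∩ KL.2 ⊆ J ∧ A KL.1 ∧ B KL.2) := by
    intro F
    by_cases h : W A B J F
    · obtain ⟨K, L, h'⟩ := h
      exact ⟨(K, L), fun _ => h'⟩
    · exact ⟨(∅, ∅), fun h' => absurd h' h⟩
  choose KL hKL using hch
  set s : Finset E → Finset E := fun F => (KL F).1 ∩ (KL F).2 with hs
  set g0 : Finset E → ℝ := fun F => ind (W A B J F ∧ s F = ∅) with hg0
  set g : E → Finset E → ℝ := fun c F => ind (W A B J F ∧ s F = {c}) with hg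
  -- decomposition of the event
  have hdec : ∀ F, ind (W A B J F) = g0 F + ∑ c ∈ J, g c F := by
    intro F
    by_cases hW : W A B J F
    · obtain ⟨h1, h2, h3, h4, h5, h6⟩ := hKL F hW
      rcases Nat.lt_or_ge (s F).card 1 with hc | hc
      · have he : s F = ∅ := Finset.card_eq_zero.1 (by omega)
        have e1 : g0 F = 1 := ind_of ⟨hW, he⟩
        have e2 : ∑ c ∈ J, g c F = 0 := by
          apply Finset.sum_eq_zero
          intro c _
          apply ind_not_of
          rintro ⟨_, h⟩
          rw [he] at h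
          exact absurd h.symm (Finset.singleton_ne_empty c)
        rw [ind_of hW, e1, e2]
        ring
      · obtain ⟨c, hc'⟩ := Finset.card_eq_one.1 (le_antisymm h3 hc)
        have hcs : s F = {c} := hc'
        have hcJ : c ∈ J := h4 (by rw [hc']; exact Finset.mem_singleton_self c)
        have e1 : g0 F = 0 := by
          apply ind_not_of
          rintro ⟨_, h⟩
          rw [hcs] at h
          exact absurd h (Finset.singleton_ne_empty c)
        have e2 : ∑ c ∈ J, g c F = 1 := by
          rw [Finset.sum_eq_single c]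
          · exact ind_of ⟨hW, hcs⟩
          · intro d _ hd
            apply ind_not_of
            rintro ⟨_, h⟩
            rw [hcs] at h
            exact hd (Finset.singleton_injective h).symm
          · intro h
            exact absurd hcJ h
        rw [ind_of hW, e1, e2]
        ring
    · have e1 : g0 F = 0 := ind_not_of (fun h => hW h.1)
      have e2 : ∑ c ∈ J, g c F = 0 :=
        Finset.sum_eq_zero (fun c _ => ind_not_of (fun h => hW h.1))
      rw [ind_not_of hW, e1, e2]
      ring
  -- the event for the doubled elements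
  set W2 : Finset (E × Bool) → Prop := fun F2 => W A B J (F2.image Prod.fst) ∧
    ∀ c ∈ s (F2.image Prod.fst), (c, false) ∈ F2 ∧ (c, true) ∈ F2 with hW2
  have hdec2 : ∀ F2, g0 (F2.image Prod.fst) + ∑ c ∈ J, g c (F2.image Prod.fst) *
      ind ((c, false) ∈ F2 ∧ (c, true) ∈ F2) ≤ ind (W2 F2) := by
    intro F2
    set F := F2.image Prod.fst with hF
    by_cases hW : W A B J F
    · obtain ⟨h1, h2, h3, h4, h5, h6⟩ := hKL F hW
      rcases Nat.lt_or_ge (s F).card 1 with hc | hc
      · have he : s F = ∅ := Finset.card_eq_zero.1 (by omega)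
        have e1 : g0 F = 1 := ind_of ⟨hW, he⟩
        have e2 : ∑ c ∈ J, g c F * ind ((c, false) ∈ F2 ∧ (c, true) ∈ F2) = 0 := by
          apply Finset.sum_eq_zero
          intro c _
          have : g c F = 0 := by
            apply ind_not_of
            rintro ⟨_, h⟩
            rw [he] at h
            exact absurd h.symm (Finset.singleton_ne_empty c)
          rw [this, zero_mul]
        have e3 : ind (W2 F2) = 1 := by
          apply ind_of
          refine ⟨hW, ?_⟩
          intro c hc
          rw [← hF, he] at hc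
          exact absurd hc (Finset.notMem_empty c)
        rw [e1, e2, e3]
        simp
      · obtain ⟨c, hc'⟩ := Finset.card_eq_one.1 (le_antisymm h3 hc)
        have hcs : s F = {c} := hc'
        have hcJ : c ∈ J := h4 (by rw [hc']; exact Finset.mem_singleton_self c)
        have e1 : g0 F = 0 := by
          apply ind_not_of
          rintro ⟨_, h⟩
          rw [hcs] at h
          exact absurd h (Finset.singleton_ne_empty c)
        have e2 : ∑ c ∈ J, g c F * ind ((c, false) ∈ F2 ∧ (c, true) ∈ F2) =
            ind ((c, false) ∈ F2 ∧ (c, true) ∈ F2) := by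
          rw [Finset.sum_eq_single c]
          · have : g c F = 1 := ind_of ⟨hW, hcs⟩
            rw [this, one_mul]
          · intro d _ hd
            have : g d F = 0 := by
              apply ind_not_of
              rintro ⟨_, h⟩
              rw [hcs] at h
              exact hd (Finset.singleton_injective h).symm
            rw [this, zero_mul]
          · intro h
            exact absurd hcJ h
        rw [e1, e2, zero_add]
        apply ind_mono
        intro hb
        refine ⟨hW, ?_⟩
        intro d hd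
        rw [← hF, hcs, Finset.mem_singleton] at hd
        rw [hd]
        exact hb
    · have e1 : g0 F = 0 := ind_not_of (fun h => hW h.1)
      have e2 : ∑ c ∈ J, g c F * ind ((c, false) ∈ F2 ∧ (c, true) ∈ F2) = 0 := by
        apply Finset.sum_eq_zero
        intro c _
        have : g c F = 0 := ind_not_of (fun h => hW h.1)
        rw [this, zero_mul]
      rw [e1, e2, add_zero]
      exact ind_nonneg _
  -- lower bound
  have hlow : a / 4 * Pr p S (W A B J) ≤ Pr (p2 p) (dbl S) W2 := by
    have h1 : Ex (p2 p) (dbl S) (fun F2 => g0 (F2.image Prod.fst) + ∑ c ∈ J,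
        g c (F2.image Prod.fst) * ind ((c, false) ∈ F2 ∧ (c, true) ∈ F2)) ≤
        Pr (p2 p) (dbl S) W2 := Ex_mono (p2_ok hp) (fun F2 _ => hdec2 F2)
    refine le_trans ?_ h1
    rw [Ex_add, Ex_sum, Ex_dbl hp S g0]
    have h2 : Pr p S (W A B J) = Ex p S g0 + ∑ c ∈ J, Ex p S (g c) := by
      unfold Pr
      rw [Ex_congr (g := fun F => g0 F + ∑ c ∈ J, g c F) (fun F _ => hdec F), Ex_add, Ex_sum]
    rw [h2, mul_add, Finset.mul_sum]
    have hg0n : 0 ≤ Ex p S g0 := Ex_nonneg hp (fun _ _ => ind_nonneg _)
    refine add_le_add ?_ (Finset.sum_le_sum fun c hc => ?_)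
    · nlinarith
    · have hgn : 0 ≤ Ex p S (g c) := Ex_nonneg hp (fun _ _ => ind_nonneg _)
      have hgc : ∀ F, g c F = g c F * ind (c ∈ F) := by
        intro F
        by_cases h : W A B J F ∧ s F = {c}
        · have hcF : c ∈ F := by
            have h1 := (hKL F h.1).1
            have h2 : c ∈ s F := by rw [h.2]; exact Finset.mem_singleton_self c
            exact h1 (Finset.mem_inter.1 h2).1
          rw [ind_of hcF, mul_one]
        · have : g c F = 0 := ind_not_of h
          rw [this, zero_mul]
      by_cases hcS : c ∈ S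
      · have h3 := Ex_both hp hcS (g := g c) (fun _ _ => ind_nonneg _)
        refine le_trans ?_ h3
        rw [← Ex_congr (f := g c) (g := fun F => g c F * ind (c ∈ F)) (fun F _ => hgc F)]
        have := hJ c hc
        nlinarith
      · have h4 : Ex p S (g c) = 0 := by
          rw [Ex_congr (g := fun _ => (0 : ℝ)), Ex_const]
          intro F hF
          rw [hgc F, ind_not_of (fun h => hcS (hF h)), mul_zero]
        rw [h4, mul_zero]
        exact Ex_nonneg (p2_ok hp) (fun _ _ => mul_nonneg (ind_nonneg _) (ind_nonneg _))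
  -- the doubled event is a disjoint occurrence
  set A2 : Finset (E × Bool) → Prop := fun F2 => A (F2.image Prod.fst) with hA2
  set B2 : Finset (E × Bool) → Prop := fun F2 => B (F2.image Prod.fst) with hB2
  have hdis : ∀ F2, F2 ⊆ dbl S → W2 F2 → DisjOcc A2 B2 F2 := by
    intro F2 _ h
    obtain ⟨hW, hb⟩ := h
    set F := F2.image Prod.fst with hF
    obtain ⟨h1, h2, h3, h4, h5, h6⟩ := hKL F hW
    set K := (KL F).1
    set L := (KL F).2
    have hb' : ∀ c ∈ K ∩ L, (c, false) ∈ F2 ∧ (c, true) ∈ F2 := hb
    refine ⟨F2.filter (fun x => x.1 ∈ K ∧ (x.1 ∈ L → x.2 = false)),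
      F2.filter (fun x => x.1 ∈ L ∧ (x.1 ∈ K → x.2 = true)), Finset.filter_subset _ _,
      Finset.filter_subset _ _, ?_, ?_, ?_⟩
    · rw [Finset.disjoint_left]
      intro x hx hy
      rw [Finset.mem_filter] at hx hy
      have e1 := hx.2.2 hy.2.1
      have e2 := hy.2.2 hx.2.1
      rw [e1] at e2
      exact Bool.false_ne_true e2
    · have : (F2.filter (fun x => x.1 ∈ K ∧ (x.1 ∈ L → x.2 = false))).image Prod.fst = K := by
        ext k
        simp only [Finset.mem_image, Finset.mem_filter]
        constructor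
        · rintro ⟨x, ⟨_, hx, _⟩, rfl⟩
          exact hx
        · intro hk
          by_cases hkL : k ∈ L
          · exact ⟨(k, false), ⟨(hb' k (Finset.mem_inter.2 ⟨hk, hkL⟩)).1, hk, fun _ => rfl⟩, rfl⟩
          · have hkF := h1 hk
            rw [hF, Finset.mem_image] at hkF
            obtain ⟨x, hx, rfl⟩ := hkF
            exact ⟨x, ⟨hx, hk, fun h => absurd h hkL⟩, rfl⟩
      show A _
      rw [this]
      exact h5
    · have : (F2.filter (fun x => x.1 ∈ L ∧ (x.1 ∈ K → x.2 = true))).image Prod.fst = L := by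
        ext k
        simp only [Finset.mem_image, Finset.mem_filter]
        constructor
        · rintro ⟨x, ⟨_, hx, _⟩, rfl⟩
          exact hx
        · intro hk
          by_cases hkK : k ∈ K
          · exact ⟨(k, true), ⟨(hb' k (Finset.mem_inter.2 ⟨hkK, hk⟩)).2, hk, fun _ => rfl⟩, rfl⟩
          · have hkF := h2 hk
            rw [hF, Finset.mem_image] at hkF
            obtain ⟨x, hx, rfl⟩ := hkF
            exact ⟨x, ⟨hx, hk, fun h => absurd h hkK⟩, rfl⟩
      show B _
      rw [this]
      exact h6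
  have himg : ∀ G : Finset (E × Bool), G ⊆ dbl S → G.image Prod.fst ⊆ S := by
    intro G hG x hx
    rw [Finset.mem_image] at hx
    obtain ⟨y, hy, rfl⟩ := hx
    exact mem_dbl.1 (hG hy)
  have hA2i : IncrE (dbl S) A2 := fun F G h1 h2 h =>
    hA _ _ (Finset.image_subset_image h1) (himg G h2) h
  have hB2i : IncrE (dbl S) B2 := fun F G h1 h2 h =>
    hB _ _ (Finset.image_subset_image h1) (himg G h2) h
  calc a / 4 * Pr p S (W A B J) ≤ Pr (p2 p) (dbl S) W2 := hlow
    _ ≤ Pr (p2 p) (dbl S) (DisjOcc A2 B2) := Pr_mono (p2_ok hp) hdis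
    _ ≤ Pr (p2 p) (dbl S) A2 * Pr (p2 p) (dbl S) B2 := bk (p2_ok hp) hA2i hB2i
    _ = Pr p S A * Pr p S B := by
      unfold Pr
      rw [← Ex_dbl hp S (fun F => ind (A F)), ← Ex_dbl hp S (fun F => ind (B F))]

theorem bks : Pool.Agent.Y990.PL.S_bks := by
  intro E _ p a J S A B hp ha ha1 hJ hA hB
  have h := bks' p a J S A B hp ha ha1 hJ hA hB
  have h2 : Pr p S (fun F => ∃ K L, K ⊆ F ∧ L ⊆ F ∧ (K ∩ L).card ≤ 1 ∧ K ∩ L ⊆ J ∧ A K ∧ B L) =
      Pr p S (W A B J) := rfl
  rw [h2, div_mul_eq_mul_div, le_div_iff₀ ha]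
  linarith

end Pool.Agent.Y554.PL
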